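import Pool.Agent.T9h44.LS5.Stm3

/-!
# Local smoothing in the mean over dilations: dilated data (piece H3 for helper44)
-/

set_option autoImplicit false

namespace Pool.Agent.T9h67.LS

open MeasureTheory Real Pool.Agent.N303.LS Pool.Agent.T9h44.LS4 Pool.Agent.T9h44.LS5
open scoped ENNReal SchwartzMap RealInnerProductSpace FourierTransform

variable {n : ℕ}

/-- the diagonal linear map -/
noncomputable def dl (s : Fin n → ℝ) : E n →ₗ[ℝ] E n :=
  (WithLp.linearEquiv 2 ℝ (Fin n → ℝ)).symm.toLinearMap ∘ₗ Matrix.toLin' (Matrix.diagonal s) ∘ₗ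
    (WithLp.linearEquiv 2 ℝ (Fin n → ℝ)).toLinearMap

theorem dl_apply (s : Fin n → ℝ) (x : E n) : dl s x = WithLp.toLp 2 fun i => s i * x i := by
  unfold dl
  ext i
  simp [Matrix.mulVec_diagonal]

theorem dl_apply' (s : Fin n → ℝ) (x : E n) (i : Fin n) : dl s x i = s i * x i := by
  rw [dl_apply]

theorem det_dl (s : Fin n → ℝ) : LinearMap.det (dl s) = ∏ i, s i := by
  have h := LinearMap.det_conj (Matrix.toLin' (Matrix.diagonal s))
    (WithLp.linearEquiv 2 ℝ (Fin n → ℝ)).symm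
  rw [LinearMap.det_toLin', Matrix.det_diagonal] at h
  rw [← h]
  rfl

/-- the diagonal homeomorphism -/
noncomputable def dh (s : Fin n → ℝ) (hs : ∀ i, 0 < s i) : E n ≃ₜ E n where
  toFun := dl s
  invFun := dl fun i => (s i)⁻¹
  left_inv x := by
    ext i
    rw [dl_apply', dl_apply', ← mul_assoc, inv_mul_cancel₀ (hs i).ne', one_mul]
  right_inv x := by
    ext i
    rw [dl_apply', dl_apply', ← mul_assoc, mul_inv_cancel₀ (hs i).ne', one_mul]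
  continuous_toFun := (dl s).continuous_of_finiteDimensional
  continuous_invFun := (dl _).continuous_of_finiteDimensional

theorem map_dl (s : Fin n → ℝ) (hs : ∀ i, 0 < s i) :
    Measure.map (dl s) (volume : Measure (E n)) = ENNReal.ofReal (∏ i, s i)⁻¹ • volume := by
  have hpos : 0 < ∏ i, s i := Finset.prod_pos fun i _ => hs i
  have h := Measure.map_linearMap_addHaar_eq_smul_addHaar (volume : Measure (E n))
    (f := dl s) (by rw [det_dl]; exact hpos.ne')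
  rw [h, det_dl, abs_of_pos (inv_pos.2 hpos)]

theorem integral_dl (s : Fin n → ℝ) (hs : ∀ i, 0 < s i) (f : E n → ℂ) :
    ∫ x : E n, f (dl s x) = ((∏ i, s i : ℝ) : ℂ)⁻¹ * ∫ y : E n, f y := by
  have hpos : 0 < ∏ i, s i := Finset.prod_pos fun i _ => hs i
  have h := (dh s hs).measurableEmbedding.integral_map (μ := (volume : Measure (E n))) f
  have h2 : Measure.map (dh s hs) (volume : Measure (E n)) =
      ENNReal.ofReal (∏ i, s i)⁻¹ • volume := map_dl s hs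
  rw [h2, integral_smul_measure, ENNReal.toReal_ofReal (inv_pos.2 hpos).le] at h
  rw [show (∫ x : E n, f (dl s x)) = ∫ x : E n, f (dh s hs x) from rfl, ← h,
    Complex.real_smul, Complex.ofReal_inv]

theorem lintegral_dl (s : Fin n → ℝ) (hs : ∀ i, 0 < s i) (f : E n → ℝ≥0∞) :
    ∫⁻ x : E n, f (dl s x) = ENNReal.ofReal (∏ i, s i)⁻¹ * ∫⁻ y : E n, f y := by
  have h := (dh s hs).measurableEmbedding.lintegral_map (μ := (volume : Measure (E n))) f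
  have h2 : Measure.map (dh s hs) (volume : Measure (E n)) =
      ENNReal.ofReal (∏ i, s i)⁻¹ • volume := map_dl s hs
  rw [h2, lintegral_smul_measure, smul_eq_mul] at h
  exact h.symm

theorem dilm_eq (g : Fin n → ℝ) (x : E n) : dilm g x = dl (fun i => (√(g i))⁻¹) x := by
  rw [dl_apply]
  unfold dilm
  congr 1
  funext i
  rw [div_eq_inv_mul]

theorem inner_dl (s : Fin n → ℝ) (x y : E n) : ⟪dl s x, y⟫ = ⟪x, dl s y⟫ := by
  simp only [PiLp.inner_apply, dl_apply', RCLike.inner_apply, conj_trivial]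
  refine Finset.sum_congr rfl fun i _ => ?_
  ring

theorem dl_dl (s : Fin n → ℝ) (hs : ∀ i, 0 < s i) (x : E n) :
    dl s (dl (fun i => (s i)⁻¹) x) = x := (dh s hs).right_inv x

/-- the Fourier transform of dilated data -/
theorem fourier_dl (s : Fin n → ℝ) (hs : ∀ i, 0 < s i) (u : E n → ℂ) (ξ : E n) :
    𝓕 (fun x => u (dl s x)) ξ = ((∏ i, s i : ℝ) : ℂ)⁻¹ * 𝓕 u (dl (fun i => (s i)⁻¹) ξ) := by
  rw [Real.fourier_eq', Real.fourier_eq', ← integral_dl s hs]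
  refine integral_congr_ae (Filter.Eventually.of_forall fun x => ?_)
  simp only
  have h : ⟪dl s x, dl (fun i => (s i)⁻¹) ξ⟫ = ⟪x, ξ⟫ := by
    rw [inner_dl, dl_dl s hs]
  rw [h]

theorem Ng_eq (g : Fin n → ℝ) (hg : ∀ i, 0 < g i) (ξ : E n) :
    ‖dl (fun i => (√(g i))⁻¹) ξ‖ = Ng g ξ := by
  rw [EuclideanSpace.norm_eq]
  unfold Ng
  congr 1
  refine Finset.sum_congr rfl fun i _ => ?_
  rw [dl_apply', Real.norm_eq_abs, sq_abs, mul_pow, inv_pow, Real.sq_sqrt (hg i).le]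
  ring

theorem wave_dil (g : Fin n → ℝ) (hg : ∀ i, 0 < g i) (u₀ u₁ : E n → ℂ) (t : ℝ) (x : E n) :
    wave (𝓕 fun x => u₀ (dilm g x)) (𝓕 fun x => u₁ (dilm g x)) t x =
      waveg g (𝓕 u₀) (𝓕 u₁) t (dilm g x) := by
  set s : Fin n → ℝ := fun i => (√(g i))⁻¹ with hs
  have hpos : ∀ i, 0 < s i := fun i => inv_pos.2 (Real.sqrt_pos.2 (hg i))
  have hP : 0 < ∏ i, s i := Finset.prod_pos fun i _ => hpos i
  have e1 : ∀ u : E n → ℂ, 𝓕 (fun x => u (dilm g x)) =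
      fun ξ => ((∏ i, s i : ℝ) : ℂ)⁻¹ * 𝓕 u (dl (fun i => (s i)⁻¹) ξ) := by
    intro u
    funext ξ
    rw [← fourier_dl s hpos u ξ]
    simp only [dilm_eq]
    rfl
  rw [e1, e1]
  unfold wave waveg inv
  set Φ : E n → ℂ := fun ξ => Complex.exp (((2 * Real.pi * ⟪x, ξ⟫ : ℝ) : ℂ) * Complex.I) *
    (((Real.cos (2 * π * t * ‖ξ‖) : ℝ) : ℂ) * (𝓕 u₀ (dl (fun i => (s i)⁻¹) ξ)) +
    ((Real.sin (2 * π * t * ‖ξ‖) / (2 * π * ‖ξ‖) : ℝ) : ℂ) *
      (𝓕 u₁ (dl (fun i => (s i)⁻¹) ξ))) with hΦ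
  have h1 := integral_dl s hpos Φ
  have h2 : ∫ ξ : E n, Complex.exp (((2 * Real.pi * ⟪x, ξ⟫ : ℝ) : ℂ) * Complex.I) *
    (((Real.cos (2 * π * t * ‖ξ‖) : ℝ) : ℂ) *
        (((∏ i, s i : ℝ) : ℂ)⁻¹ * 𝓕 u₀ (dl (fun i => (s i)⁻¹) ξ)) +
      ((Real.sin (2 * π * t * ‖ξ‖) / (2 * π * ‖ξ‖) : ℝ) : ℂ) *
        (((∏ i, s i : ℝ) : ℂ)⁻¹ * 𝓕 u₁ (dl (fun i => (s i)⁻¹) ξ))) =
      ((∏ i, s i : ℝ) : ℂ)⁻¹ * ∫ ξ : E n, Φ ξ := by
    rw [← integral_const_mul]
    refine integral_congr_ae (Filter.Eventually.of_forall fun ξ => ?_)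
    simp only [hΦ]
    ring
  rw [h2, ← h1]
  refine integral_congr_ae (Filter.Eventually.of_forall fun η => ?_)
  simp only [hΦ]
  have h3 : dl (fun i => (s i)⁻¹) (dl s η) = η := (dh s hpos).left_inv η
  have h4 : ‖dl s η‖ = Ng g η := Ng_eq g hg η
  have h5 : ⟪x, dl s η⟫ = ⟪dilm g x, η⟫ := by
    rw [dilm_eq, inner_dl]
  rw [h3, h4, h5]

/-- H3 -/
theorem dil (n : ℕ) : S_DIL n := by
  intro g hg u₀ u₁ t p hp
  have hpos : ∀ i, 0 < (√(g i))⁻¹ := fun i => inv_pos.2 (Real.sqrt_pos.2 (hg i))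
  simp_rw [wave_dil g hg (u₀ : E n → ℂ) (u₁ : E n → ℂ) t, dilm_eq]
  rw [lintegral_dl (fun i => (√(g i))⁻¹) hpos
    (fun y => ‖waveg g (𝓕 (u₀ : E n → ℂ)) (𝓕 (u₁ : E n → ℂ)) t y‖ₑ ^ p), Finset.prod_inv_distrib,
    inv_inv]

end Pool.Agent.T9h67.LS
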